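import Mathlib

namespace Pool.Agent.Results.MP_3f72ec_co.Counter

open Set

/-- the line `a x + b y = c` meets the segment `uv` in exactly one point, interior to the segment -/
def Stabs (a b c : ℝ) (u v : ℝ × ℝ) : Prop :=
  ∃ p, {q : ℝ × ℝ | a * q.1 + b * q.2 = c} ∩ segment ℝ u v = {p} ∧ p ∈ openSegment ℝ u v

/-- edges of `T` stabbed by the line -/
def hit {n : ℕ} (P : Fin n → ℝ × ℝ) (T : SimpleGraph (Fin n)) (a b c : ℝ) : Set (Sym2 (Fin n)) :=
  {e | ∃ i j, e = s(i, j) ∧ T.Adj i j ∧ Stabs a b c (P i) (P j)}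

/-- stabbing number of the graph `T` drawn on the points `P` -/
noncomputable def stab {n : ℕ} (P : Fin n → ℝ × ℝ) (T : SimpleGraph (Fin n)) : ℕ :=
  sSup {k | ∃ a b c : ℝ, (a, b) ≠ 0 ∧ k = (hit P T a b c).ncard}

noncomputable def treeStab {n : ℕ} (P : Fin n → ℝ × ℝ) : ℕ :=
  sInf {k | ∃ T : SimpleGraph (Fin n), T.IsTree ∧ k = stab P T}

def Z : Fin 6 → ℤ × ℤ := ![(0, 0), (1, 0), (2, 0), (0, 1), (0, 2), (-1, -1)]

def S (i : Fin 6) : ℝ × ℝ := ((Z i).1, (Z i).2)

theorem stabs_iff (a b c : ℝ) (u v : ℝ × ℝ) (h : u ≠ v) :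
    Stabs a b c u v ↔ (a * u.1 + b * u.2 - c) * (a * v.1 + b * v.2 - c) < 0 := by
  constructor
  · rintro ⟨p, e, s, t, hs, ht, st, rfl⟩
    have hp : s • u + t • v ∈ {q : ℝ × ℝ | a * q.1 + b * q.2 = c} ∩ segment ℝ u v := by
      rw [e]; rfl
    have h0 : s * (a * u.1 + b * u.2 - c) + t * (a * v.1 + b * v.2 - c) = 0 := by
      have := hp.1
      simp only [mem_ofPred_eq, Prod.fst_add, Prod.snd_add, Prod.smul_fst, Prod.smul_snd,
        smul_eq_mul] at this
      linear_combination this - c * st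
    have hu : a * u.1 + b * u.2 - c ≠ 0 := by
      intro g
      have : u ∈ ({s • u + t • v} : Set (ℝ × ℝ)) :=
        e ▸ ⟨sub_eq_zero.1 g, left_mem_segment ℝ u v⟩
      rw [mem_singleton_iff] at this
      apply h
      apply smul_right_injective (ℝ × ℝ) ht.ne'
      have e2 : (s + t) • u = s • u + t • v := by rw [st, one_smul]; exact this
      rw [add_smul] at e2
      exact add_left_cancel e2
    have := mul_pos hs (mul_self_pos.2 hu)
    by_contra g
    have := mul_nonneg ht.le (not_lt.1 g)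
    have : (a * u.1 + b * u.2 - c) * (s * (a * u.1 + b * u.2 - c) +
      t * (a * v.1 + b * v.2 - c)) = 0 := by rw [h0, mul_zero]
    nlinarith
  · intro g
    set x := a * u.1 + b * u.2 - c with hx
    set y := a * v.1 + b * v.2 - c with hy
    have d : x - y ≠ 0 := by
      intro e
      rw [sub_eq_zero.1 e] at g
      exact absurd g (not_lt.2 (mul_self_nonneg _))
    have p1 : 0 < -y / (x - y) := by
      rw [div_pos_iff]; rcases mul_neg_iff.1 g with ⟨_, _⟩ | ⟨_, _⟩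
      · left; constructor <;> linarith
      · right; constructor <;> linarith
    have p2 : 0 < x / (x - y) := by
      rw [div_pos_iff]; rcases mul_neg_iff.1 g with ⟨_, _⟩ | ⟨_, _⟩
      · left; constructor <;> linarith
      · right; constructor <;> linarith
    have p3 : -y / (x - y) + x / (x - y) = 1 := by field_simp; ring
    have key : ∀ s t : ℝ, s + t = 1 →
        (a * (s • u + t • v).1 + b * (s • u + t • v).2 = c ↔ s * x + t * y = 0) := by
      intro s t st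
      simp only [Prod.fst_add, Prod.snd_add, Prod.smul_fst, Prod.smul_snd, smul_eq_mul, hx, hy]
      constructor <;> intro e
      · linear_combination e - c * st
      · linear_combination e + c * st
    refine ⟨_, ?_, _, _, p1, p2, p3, rfl⟩
    ext q
    constructor
    · rintro ⟨hq, s, t, _, _, st, rfl⟩
      have := (key s t st).1 hq
      have e1 : s = -y / (x - y) := by field_simp; linear_combination this - y * st
      have e2 : t = x / (x - y) := by field_simp; linear_combination x * st - this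
      rw [e1, e2]; rfl
    · rintro rfl
      exact ⟨(key _ _ p3).2 (by field_simp; ring), _, _, p1.le, p2.le, p3, rfl⟩

theorem S_inj : Function.Injective S := by
  intro i j h
  have : Function.Injective Z := by decide
  apply this
  simp only [S, Prod.mk.injEq, Int.cast_inj] at h
  exact Prod.ext h.1 h.2

theorem bdd {n : ℕ} (P : Fin n → ℝ × ℝ) (T : SimpleGraph (Fin n)) :
    BddAbove {k | ∃ a b c : ℝ, (a, b) ≠ 0 ∧ k = (hit P T a b c).ncard} :=
  ⟨_, by rintro k ⟨a, b, c, _, rfl⟩; exact ncard_le_ncard (subset_univ _)⟩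

def T0 : SimpleGraph (Fin 6) :=
  SimpleGraph.fromRel fun i j => (i, j) ∈ [(0, 1), (1, 2), (0, 3), (3, 4), (0, 5)]

instance : DecidableRel T0.Adj := by unfold T0; infer_instance

theorem up : treeStab S ≤ 2 := by
  have ht : T0.IsTree := by
    rw [SimpleGraph.isTree_iff_connected_and_card]
    refine ⟨by decide +kernel, ?_⟩
    rw [Nat.card_eq_card_toFinset, Nat.card_fin]
    decide +kernel
  refine le_trans (b := stab S T0) (Nat.sInf_le ⟨T0, ht, rfl⟩) (csSup_le' ?_)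
  rintro k ⟨a, b, c, _, rfl⟩
  have hm : ∀ e ∈ hit S T0 a b c, (e = s(0, 1) ∧ c * (c - a) < 0) ∨
      (e = s(1, 2) ∧ (a - c) * (2 * a - c) < 0) ∨ (e = s(0, 3) ∧ c * (c - b) < 0) ∨
      (e = s(3, 4) ∧ (b - c) * (2 * b - c) < 0) ∨ (e = s(0, 5) ∧ c * (a + b + c) < 0) := by
    rintro e ⟨i, j, rfl, h, g⟩
    rw [stabs_iff _ _ _ _ _ (S_inj.ne h.ne)] at g
    fin_cases i <;> fin_cases j <;> simp [T0, S, Z] at h g ⊢ <;> linarith
  have two : ∀ x y : Sym2 (Fin 6), hit S T0 a b c ⊆ {x, y} → (hit S T0 a b c).ncard ≤ 2 :=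
    fun x y h => (ncard_le_ncard h).trans ((ncard_insert_le _ _).trans (by simp))
  have ex : ∀ a : ℝ, c * (c - a) < 0 → ¬ (a - c) * (2 * a - c) < 0 := by
    intro a h g; nlinarith [sq_nonneg (a - c), sq_nonneg c, sq_nonneg a]
  have po : ∀ a : ℝ, c * (c - a) < 0 ∨ (a - c) * (2 * a - c) < 0 → 0 < a * c := by
    rintro a (h | h) <;> nlinarith [sq_nonneg c, sq_nonneg a]
  have zz : 0 < a * c → 0 < b * c → ¬ c * (a + b + c) < 0 := by
    intro h g f; nlinarith [sq_nonneg c]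
  let x : Sym2 (Fin 6) := if c * (c - a) < 0 then s(0, 1) else s(1, 2)
  let y : Sym2 (Fin 6) := if c * (c - b) < 0 then s(0, 3) else s(3, 4)
  have hm' : ∀ e ∈ hit S T0 a b c, (e = x ∧ 0 < a * c) ∨ (e = y ∧ 0 < b * c) ∨
      (e = s(0, 5) ∧ c * (a + b + c) < 0) := by
    intro e he
    rcases hm e he with ⟨rfl, g⟩ | ⟨rfl, g⟩ | ⟨rfl, g⟩ | ⟨rfl, g⟩ | g
    · exact Or.inl ⟨(if_pos g).symm, po a (Or.inl g)⟩
    · exact Or.inl ⟨(if_neg fun h => ex a h g).symm, po a (Or.inr g)⟩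
    · exact Or.inr (Or.inl ⟨(if_pos g).symm, po b (Or.inl g)⟩)
    · exact Or.inr (Or.inl ⟨(if_neg fun h => ex b h g).symm, po b (Or.inr g)⟩)
    · exact Or.inr (Or.inr g)
  by_cases h1 : 0 < a * c
  · by_cases h2 : 0 < b * c
    · refine two x y fun e he => ?_
      rcases hm' e he with g | g | g
      exacts [Or.inl g.1, Or.inr g.1, absurd g.2 (zz h1 h2)]
    · refine two x s(0, 5) fun e he => ?_
      rcases hm' e he with g | g | g
      exacts [Or.inl g.1, absurd g.2 h2, Or.inr g.1]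
  · refine two y s(0, 5) fun e he => ?_
    rcases hm' e he with g | g | g
    exacts [absurd g.2 h1, Or.inl g.1, Or.inr g.1]

def L : Fin 10 → Fin 5 × Fin 5 :=
  ![(0, 1), (0, 2), (0, 3), (0, 4), (1, 2), (1, 3), (1, 4), (2, 3), (2, 4), (3, 4)]

def f (l : ℤ × ℤ × ℤ) (i : Fin 5) : ℤ := l.1 * (Z i.succ).1 + l.2.1 * (Z i.succ).2 - l.2.2

def lines : List (ℤ × ℤ × ℤ) := [(-1, -1, 0), (-2, 0, -1), (-1, 2, 0), (-2, 0, -3), (0, -2, -3), (-2, -2, -3), (-4, -2, -3), (-2, -4, -3), (-6, 2, 3), (-2, 6, -3)]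

theorem fin : ∀ x0 x1 x2 x3 x4 x5 x6 x7 x8 x9 : Bool,
    (∀ A : Fin 5 → Bool, A 0 = true → (∃ j, A j = false) →
      ∃ i, ![x0, x1, x2, x3, x4, x5, x6, x7, x8, x9] i = true ∧ A (L i).1 ≠ A (L i).2) →
    ∃ l ∈ lines, (l.1 ≠ 0 ∨ l.2.1 ≠ 0) ∧ 3 ≤ (Finset.univ.filter fun i =>
      ![x0, x1, x2, x3, x4, x5, x6, x7, x8, x9] i = true ∧ f l (L i).1 * f l (L i).2 < 0).card := by
  decide +kernel

theorem low (T : SimpleGraph (Fin 5)) (h : T.Connected) : 3 ≤ stab (S ∘ Fin.succ) T := by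
  classical
  let x : Fin 10 → Bool := fun i => decide (T.Adj (L i).1 (L i).2)
  have hx : ![x 0, x 1, x 2, x 3, x 4, x 5, x 6, x 7, x 8, x 9] = x := by
    ext i; fin_cases i <;> rfl
  have := fin (x 0) (x 1) (x 2) (x 3) (x 4) (x 5) (x 6) (x 7) (x 8) (x 9)
  rw [hx] at this
  obtain ⟨⟨a, b, c⟩, _, hl, hc⟩ := this fun A h0 ⟨j, hj⟩ => by
    obtain ⟨w⟩ := h.preconnected 0 j
    obtain ⟨d, _, d1, d2⟩ := w.exists_boundary_dart {i | A i = true} h0 (by simp [hj])
    have cov : ∀ u v : Fin 5, u ≠ v → ∃ i, L i = (u, v) ∨ L i = (v, u) := by decide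
    obtain ⟨i, e | e⟩ := cov _ _ d.adj.ne
    · exact ⟨i, by simp [x, e, d.adj], by simp_all⟩
    · exact ⟨i, by simp [x, e, d.adj.symm], by simp_all⟩
  refine le_trans ?_ (le_csSup (bdd _ T) ⟨a, b, c, by
    intro e; simp only [Prod.mk_eq_zero, Int.cast_eq_zero] at e; tauto, rfl⟩)
  have inj : Function.Injective fun i => s((L i).1, (L i).2) := by decide
  rw [← Finset.card_image_of_injective _ inj, ← ncard_coe_finset] at hc
  refine hc.trans (ncard_le_ncard ?_)
  intro e he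
  simp only [Finset.coe_image, Finset.coe_filter, Finset.mem_univ, true_and, mem_image,
    mem_ofPred_eq, x, decide_eq_true_eq] at he
  obtain ⟨i, ⟨h1, h2⟩, rfl⟩ := he
  refine ⟨_, _, rfl, h1, (stabs_iff _ _ _ _ _
    ((S_inj.comp (Fin.succ_injective _)).ne h1.ne)).2 ?_⟩
  simp only [Function.comp, S]
  unfold f at h2
  exact_mod_cast h2

theorem result : ∃ (P : Fin 6 → ℝ × ℝ), Function.Injective P ∧
    treeStab P ≤ 2 ∧ 3 ≤ treeStab (P ∘ Fin.succ : Fin 5 → ℝ × ℝ) := by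
  refine ⟨S, S_inj, up, le_csInf ?_ ?_⟩
  · obtain ⟨T, _, hT⟩ := (SimpleGraph.connected_top (V := Fin 5)).exists_isTree_le
    exact ⟨_, T, hT, rfl⟩
  · rintro k ⟨T, hT, rfl⟩
    exact low T hT.connected

end Pool.Agent.Results.MP_3f72ec_co.Counter
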